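import Pool.Agent.Run7.h932.DS.Stm

set_option autoImplicit false

/-!
# Project DS (MP_ef9bc2_co), piece FWD: switching a bad edge with a far good edge creates no bad
edge.
-/

namespace Pool.Agent.Run7.h150.DS

open Finset Run7.h932.DS

theorem walk_append {n m : ℕ} (v : HE m → Fin n) (π : Equiv.Perm (HE m)) :
    ∀ (w₁ w₂ : List (HE m)) (x y : Fin n),
      IsWalk v π (w₁ ++ w₂) x y ↔ ∃ z, IsWalk v π w₁ x z ∧ IsWalk v π w₂ z y
  | [], w₂, x, y => by simp [IsWalk]
  | p :: w₁, w₂, x, y => by
      simp only [List.cons_append, IsWalk, walk_append v π w₁ w₂]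
      constructor
      · rintro ⟨h, z, h1, h2⟩; exact ⟨z, ⟨h, h1⟩, h2⟩
      · rintro ⟨z, ⟨h, h1⟩, h2⟩; exact ⟨h, z, h1, h2⟩

/-- The opposite passage. -/
def flp {m : ℕ} (p : HE m) : HE m := (p.1, !p.2)

theorem walk_rev {n m : ℕ} (v : HE m → Fin n) (π : Equiv.Perm (HE m)) :
    ∀ (w : List (HE m)) (x y : Fin n),
      IsWalk v π w x y → IsWalk v π (w.reverse.map flp) y x
  | [], x, y, h => by
      have h' : x = y := h
      exact h'.symm
  | p :: w, x, y, h => by
      obtain ⟨h1, h2⟩ := h
      have h3 := walk_rev v π w _ _ h2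
      simp only [List.reverse_cons, List.map_append, List.map_cons, List.map_nil]
      rw [walk_append]
      refine ⟨_, h3, rfl, ?_⟩
      simp [flp, IsWalk, h1]

theorem map_fst_rev {m : ℕ} (w : List (HE m)) :
    (w.reverse.map flp).map Prod.fst = (w.map Prod.fst).reverse := by
  simp [List.map_map, Function.comp_def, flp, List.map_reverse]

theorem walk_congr {n m : ℕ} (v : HE m → Fin n) (π π' : Equiv.Perm (HE m)) :
    ∀ (w : List (HE m)) (x y : Fin n), (∀ p ∈ w, ∀ b, π (p.1, b) = π' (p.1, b)) →
      IsWalk v π w x y → IsWalk v π' w x y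
  | [], x, y, _, h => h
  | p :: w, x, y, hp, h => by
      obtain ⟨h1, h2⟩ := h
      have e1 : π p = π' p := hp p (by simp) p.2
      have e2 := hp p (by simp) (!p.2)
      refine ⟨by rw [← e1]; exact h1, ?_⟩
      rw [← e2]
      exact walk_congr v π π' w _ _ (fun q hq => hp q (by simp [hq])) h2

/-- The reversed trail. -/
theorem trail_rev {n m : ℕ} {v : HE m → Fin n} {π : Equiv.Perm (HE m)} {L : ℕ} {S : Set (Fin m)}
    {x y : Fin n} (h : Trail v π L S x y) : Trail v π L S y x := by
  obtain ⟨w, h1, h2, h3, h4⟩ := h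
  refine ⟨w.reverse.map flp, by simpa using h1, ?_, ?_, walk_rev v π w x y h4⟩
  · rw [map_fst_rev, List.nodup_reverse]
    exact h2
  · intro p hp
    simp only [List.mem_map, List.mem_reverse] at hp
    obtain ⟨q, hq, rfl⟩ := hp
    exact h3 q hq

/-- A closed walk which passes the edge `a` can be rotated (and reversed) so that it begins with
`(a, true)`. -/
theorem rotate_to {n m : ℕ} (v : HE m → Fin n) (π : Equiv.Perm (HE m)) (c : List (HE m))
    (x : Fin n) (a : Fin m) (hc : IsWalk v π c x x) (ha : a ∈ c.map Prod.fst) :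
    ∃ w : List (HE m), IsWalk v π w (v (π (a, false))) (v (π (a, true))) ∧
      (a :: w.map Prod.fst).Perm (c.map Prod.fst) := by
  obtain ⟨p, hp, rfl⟩ := List.mem_map.1 ha
  obtain ⟨c₁, c₂, rfl⟩ := List.append_of_mem hp
  rw [walk_append] at hc
  obtain ⟨z, h1, h2, h3⟩ := hc
  have h4 : IsWalk v π (c₂ ++ c₁) (v (π (p.1, !p.2))) z := by
    rw [walk_append]
    exact ⟨x, h3, h1⟩
  have hperm : (p.1 :: (c₂ ++ c₁).map Prod.fst).Perm ((c₁ ++ p :: c₂).map Prod.fst) := by
    simp only [List.map_append, List.map_cons]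
    refine List.Perm.trans ?_ List.perm_middle.symm
    exact List.Perm.cons _ List.perm_append_comm
  obtain ⟨a, b⟩ := p
  cases b with
  | true =>
      refine ⟨c₂ ++ c₁, ?_, hperm⟩
      have h5 : z = v (π (a, true)) := h2.symm
      rw [← h5]
      exact h4
  | false =>
      refine ⟨(c₂ ++ c₁).reverse.map flp, ?_, ?_⟩
      · have h5 : z = v (π (a, false)) := h2.symm
        have h6 := walk_rev v π _ _ _ h4
        rw [h5] at h6
        exact h6
      · refine List.Perm.trans ?_ hperm
        rw [map_fst_rev]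
        exact List.Perm.cons _ (List.reverse_perm _)

theorem sw_other {m : ℕ} (π : Equiv.Perm (HE m)) {i j a : Fin m} (hi : a ≠ i) (hj : a ≠ j)
    (b : Bool) : sw π i j (a, b) = π (a, b) := by
  have h1 : ((a, b) : HE m) ≠ (i, false) := fun h => hi (congrArg Prod.fst h)
  have h2 : ((a, b) : HE m) ≠ (j, false) := fun h => hj (congrArg Prod.fst h)
  simp only [sw, Equiv.Perm.mul_apply, Equiv.swap_apply_of_ne_of_ne h1 h2]

theorem sw_true {m : ℕ} (π : Equiv.Perm (HE m)) (i j a : Fin m) :
    sw π i j (a, true) = π (a, true) := by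
  have h1 : ((a, true) : HE m) ≠ (i, false) := fun h => by simpa using congrArg Prod.snd h
  have h2 : ((a, true) : HE m) ≠ (j, false) := fun h => by simpa using congrArg Prod.snd h
  simp only [sw, Equiv.Perm.mul_apply, Equiv.swap_apply_of_ne_of_ne h1 h2]

theorem sw_left {m : ℕ} (π : Equiv.Perm (HE m)) (i j : Fin m) :
    sw π i j (i, false) = π (j, false) := by
  simp [sw, Equiv.Perm.mul_apply]

theorem sw_right {m : ℕ} (π : Equiv.Perm (HE m)) (i j : Fin m) :
    sw π i j (j, false) = π (i, false) := by
  simp [sw, Equiv.Perm.mul_apply]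

/-- Piece FWD. -/
theorem t_FWD : S_FWD := by
  intro n m L v π i j hfar hbad e he
  -- trails which avoid `i` and `j` are the same
  have htr : ∀ (w : List (HE m)) (x y : Fin n), i ∉ w.map Prod.fst → j ∉ w.map Prod.fst →
      IsWalk v (sw π i j) w x y → IsWalk v π w x y := by
    intro w x y hi hj hw
    refine walk_congr v _ _ w x y (fun p hp b => ?_) hw
    have h1 : p.1 ≠ i := fun h => hi (h ▸ List.mem_map_of_mem hp)
    have h2 : p.1 ≠ j := fun h => hj (h ▸ List.mem_map_of_mem hp)
    exact sw_other π h1 h2 b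
  have hfar' : ∀ (b b' : Bool) (w : List (HE m)), w.length ≤ L → (w.map Prod.fst).Nodup →
      IsWalk v π w (v (π (i, b))) (v (π (j, b'))) → False := by
    intro b b' w h1 h2 h3
    exact hfar b b' ⟨w, by omega, h2, by simp, h3⟩
  have hfar'' : ∀ (b b' : Bool) (w : List (HE m)), w.length ≤ L → (w.map Prod.fst).Nodup →
      IsWalk v π w (v (π (j, b'))) (v (π (i, b))) → False := by
    intro b b' w h1 h2 h3
    refine hfar' b b' (w.reverse.map flp) (by simpa using h1) ?_ (walk_rev v π w _ _ h3)
    rw [map_fst_rev, List.nodup_reverse]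
    exact h2
  obtain ⟨w, hlen, hnd, hav, hw⟩ := he
  have hnd' : (((e, true) :: w).map Prod.fst).Nodup := by
    simp only [List.map_cons, List.nodup_cons]
    refine ⟨fun h => ?_, hnd⟩
    obtain ⟨p, hp, h1⟩ := List.mem_map.1 h
    exact hav p hp h1
  have hclosed : IsWalk v (sw π i j) ((e, true) :: w) (v (sw π i j (e, true)))
      (v (sw π i j (e, true))) := ⟨rfl, hw⟩
  by_cases hi : i ∈ ((e, true) :: w).map Prod.fst
  · exfalso
    obtain ⟨w₁, h1, h2⟩ := rotate_to v (sw π i j) _ _ i hclosed hi
    have hnd1 : (i :: w₁.map Prod.fst).Nodup := h2.nodup_iff.2 hnd'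
    have hlen1 : w₁.length ≤ L := by
      have := h2.length_eq
      simp only [List.length_cons, List.length_map] at this
      omega
    rw [sw_left, sw_true] at h1
    rw [List.nodup_cons] at hnd1
    by_cases hj : j ∈ w₁.map Prod.fst
    · obtain ⟨p, hp, hpj⟩ := List.mem_map.1 hj
      obtain ⟨A, B, hAB⟩ := List.append_of_mem hp
      rw [hAB, walk_append] at h1
      obtain ⟨z, hA, hz, -⟩ := h1
      have hnd2 : (w₁.map Prod.fst).Nodup := hnd1.2
      rw [hAB, List.map_append, List.map_cons, List.nodup_append] at hnd2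
      have hiA : i ∉ A.map Prod.fst := fun h => hnd1.1 (by
        rw [hAB, List.map_append]
        exact List.mem_append_left _ h)
      have hjA : j ∉ A.map Prod.fst := fun h =>
        hnd2.2.2 j h p.1 (by simp) hpj.symm
      have hA' := htr A _ _ hiA hjA hA
      have hlenA : A.length ≤ L := by
        have : w₁.length = A.length + (B.length + 1) := by
          rw [hAB]
          simp
        omega
      obtain ⟨a, b⟩ := p
      simp only at hpj
      subst hpj
      cases b with
      | false =>
          rw [sw_right] at hz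
          rw [← hz] at hA'
          exact hfar'' false false A hlenA hnd2.1 hA'
      | true =>
          rw [sw_true] at hz
          rw [← hz] at hA'
          refine hbad ⟨A, hlenA, hnd2.1, ?_, hA'⟩
          intro q hq hqj
          exact hjA (hqj ▸ List.mem_map_of_mem hq)
    · exact hfar'' true false w₁ hlen1 hnd1.2 (htr w₁ _ _ hnd1.1 hj h1)
  · by_cases hj : j ∈ ((e, true) :: w).map Prod.fst
    · exfalso
      obtain ⟨w₁, h1, h2⟩ := rotate_to v (sw π i j) _ _ j hclosed hj
      have hnd1 : (j :: w₁.map Prod.fst).Nodup := h2.nodup_iff.2 hnd'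
      have hlen1 : w₁.length ≤ L := by
        have := h2.length_eq
        simp only [List.length_cons, List.length_map] at this
        omega
      rw [sw_right, sw_true] at h1
      rw [List.nodup_cons] at hnd1
      have hi1 : i ∉ w₁.map Prod.fst := fun h => hi (h2.subset (List.mem_cons_of_mem _ h))
      exact hfar' false true w₁ hlen1 hnd1.2 (htr w₁ _ _ hi1 hnd1.1 h1)
    · simp only [List.map_cons, List.mem_cons, not_or] at hi hj
      refine ⟨fun h => hi.1 h.symm, w, hlen, hnd, hav, ?_⟩
      have h3 := htr w _ _ hi.2 hj.2 hw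
      rw [sw_true, sw_other π (fun h => hi.1 h.symm) (fun h => hj.1 h.symm)] at h3
      exact h3

end Pool.Agent.Run7.h150.DS
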